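import Pool.Agent.Lib.MP_3f23fb_mp.W.Fin

/-!
# MP_3f23fb_mp: positive topological entropy of the isosceles three-body problem below the escape energy

Masses m, m, m₃, angular momentum c ≠ 0, h* = -m⁵/(4c²) = minimal energy of the Kepler binary of masses m, m with angular momentum c. For
small m₃/m and all energies h*(1 + κ (m₃/m)^(5/4)) ≤ h < h* the integral manifold M_{h,c} is compact, (h,c) is a regular value, and the
flow on M_{h,c} has positive topological entropy.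
-/

namespace Pool.Agent.Results.MP_3f23fb_mp.ThresholdEntropy

open IsoTB

theorem result : ∃ μ₀ κ : ℝ, 0 < μ₀ ∧ 0 < κ ∧ ∀ m m₃ c h : ℝ, 0 < m → 0 < m₃ → m₃ < μ₀ * m → c ≠ 0 →
    -(m ^ 5 / (4 * c ^ 2)) * (1 + κ * (m₃ / m) ^ (5 / 4 : ℝ)) ≤ h → h < -(m ^ 5 / (4 * c ^ 2)) →
    IsCompact (level m m₃ h c) ∧ IsRegularLevel m m₃ h c ∧
      ∃ Φ : Flow ℝ ↥(level m m₃ h c),
        (∀ (x : ↥(level m m₃ h c)) (t : ℝ), HasDerivAt (fun s => (Φ s x : St)) (newton (mass m m₃) (Φ t x)) t) ∧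
        0 < Dynamics.coverEntropy (Φ 1) Set.univ :=
  main_theorem

end Pool.Agent.Results.MP_3f23fb_mp.ThresholdEntropy
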